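import Pool.Agent.RTB.All

/-!
# MP_7b271a_ag: rank 2 bundles computing Cliff_2 with more than four sections

For odd `g ≥ 15`, on a general curve of genus `g` every semistable bundle of rank 2 and degree
`2g-2` whose determinant is not the canonical bundle has `h0 ≤ (g+1)/2 < (g+3)/2`.
-/

set_option autoImplicit false

namespace Pool.Agent.Results.MP_7b271a_ag.OddGenusCliffordTwo

open Pool.Agent.RTB

theorem result : ∀ g : ℕ, Odd g → 15 ≤ g →
    ∃ Ψ : MvPolynomial (Idx g) ℚ,
      (∃ X : MarkedCurve g, MvPolynomial.aeval X.c Ψ ≠ 0) ∧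
      ∀ X : MarkedCurve g, MvPolynomial.aeval X.c Ψ ≠ 0 →
        ∀ E : VB2 X.K, E.Semistable → deg E.det = 2 * (g : ℤ) - 2 → h0 E.det < g →
          2 * E.h0 ≤ g + 1 :=
  main_statement

end Pool.Agent.Results.MP_7b271a_ag.OddGenusCliffordTwo
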